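import Mathlib

/-!
# The convexity argument for the cone of translation data
-/

set_option autoImplicit false
set_option linter.unusedSectionVars false

namespace Pool.Agent.Lib.MP_d9b062_al.CONE

open Filter
open scoped Topology

variable {ι : Type*} [Fintype ι] {E : Type*} [NormedAddCommGroup E] [InnerProductSpace ℝ E]
  [FiniteDimensional ℝ E]

/-- the open cone over a set -/
def cone (D : Set ((ι → ℝ) × E)) : Set ((ι → ℝ) × E) :=
  {p | ∃ s : ℝ, 0 < s ∧ ∃ d ∈ D, p = s • d}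

/-- the axioms of the set of translation data -/
structure Data (o : ι) (EL : Submodule ℝ E) (D : Set ((ι → ℝ) × E)) : Prop where
  ne : D.Nonempty
  el : ∀ p ∈ D, p.2 ∈ EL
  reg : ∀ p ∈ D, ∀ i, i ≠ o → p.1 i ≠ 0
  sum : ∀ p ∈ D, ∀ p' ∈ D, ∀ n m : ℕ, 0 < n → 0 < m →
    (∀ i, i ≠ o → (n : ℝ) * p.1 i + (m : ℝ) * p'.1 i ≠ 0) →
    (n : ℝ) • p + (m : ℝ) • p' ∈ closure (cone D)
  sigma : ∀ p ∈ D, ∃ X : ι → ℝ, (X, -p.2) ∈ D
  norel : ∀ e ∈ EL, ∀ φ : (ι → ℝ) →ₗ[ℝ] ℝ, (∀ p ∈ D, inner ℝ p.2 e = φ p.1) → e = 0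

variable {o : ι} {EL : Submodule ℝ E} {D : Set ((ι → ℝ) × E)}

theorem smul_mem_closure_cone {p : (ι → ℝ) × E} (hp : p ∈ closure (cone D)) {s : ℝ}
    (hs : 0 < s) : s • p ∈ closure (cone D) := by
  refine map_mem_closure (continuous_const_smul s) hp ?_
  rintro _ ⟨t, ht, d, hd, rfl⟩
  exact ⟨s * t, by positivity, d, hd, by rw [smul_smul]⟩

theorem mem_cone_of_mem {p : (ι → ℝ) × E} (hp : p ∈ D) : p ∈ cone D :=
  ⟨1, one_pos, p, hp, by rw [one_smul]⟩

theorem Data.zero_mem (h : Data o EL D) : (0 : (ι → ℝ) × E) ∈ closure (cone D) := by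
  obtain ⟨d, hd⟩ := h.ne
  have h1 : (0 : ℝ) ∈ closure (Set.Ioi (0 : ℝ)) := by
    rw [closure_Ioi]; exact Set.self_mem_Ici
  have h2 : Continuous (fun s : ℝ => s • d) := continuous_id.smul continuous_const
  have h3 : Set.MapsTo (fun s : ℝ => s • d) (Set.Ioi 0) (cone D) := fun s hs => ⟨s, hs, d, hd, rfl⟩
  have := map_mem_closure h2 h1 h3
  simpa using this

theorem Data.smul_mem (h : Data o EL D) {p : (ι → ℝ) × E} (hp : p ∈ closure (cone D)) {s : ℝ}
    (hs : 0 ≤ s) : s • p ∈ closure (cone D) := by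
  rcases hs.lt_or_eq with hs | rfl
  · exact smul_mem_closure_cone hp hs
  · rw [zero_smul]; exact h.zero_mem

/-- positive rational ratios avoiding a finite set are dense -/
theorem mem_closure_ratio {B : Set ℝ} (hB : B.Finite) {r : ℝ} (hr : 0 < r) :
    r ∈ closure (Set.Ioi (0 : ℝ) ∩ (Set.range ((↑) : ℚ → ℝ) \ B)) := by
  have h1 : Dense (Set.range ((↑) : ℚ → ℝ) \ B) :=
    Dense.sdiff_finite Rat.denseRange_cast hB
  exact h1.open_subset_closure_inter isOpen_Ioi hr

theorem Data.add_cone (h : Data o EL D) {p p' : (ι → ℝ) × E} (hp : p ∈ D) (hp' : p' ∈ D)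
    {r : ℝ} (hr : 0 < r) : p + r • p' ∈ closure (cone D) := by
  classical
  set B : Set ℝ := Set.range (fun i => -p.1 i / p'.1 i) with hB
  have hBf : B.Finite := Set.finite_range _
  have h1 := mem_closure_ratio hBf hr
  have h2 : Continuous (fun r : ℝ => p + r • p') :=
    continuous_const.add (continuous_id.smul continuous_const)
  rw [← closure_closure (s := cone D)]
  refine map_mem_closure (f := fun r : ℝ => p + r • p') h2 h1 ?_
  rintro _ ⟨hx0, ⟨x, rfl⟩, hxB⟩
  have hx : 0 < x := by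
    have : (0 : ℝ) < x := hx0
    exact_mod_cast this
  have hn : 0 < x.den := x.den_pos
  have hm : 0 < x.num.toNat := by
    have := Rat.num_pos.mpr hx
    omega
  have hnum : ((x.num.toNat : ℕ) : ℝ) = (x.num : ℝ) := by
    have : ((x.num.toNat : ℕ) : ℤ) = x.num := Int.toNat_of_nonneg (Rat.num_pos.mpr hx).le
    exact_mod_cast this
  have hnR : (0 : ℝ) < (x.den : ℝ) := by exact_mod_cast hn
  have hxe : (x : ℝ) = (x.num.toNat : ℝ) / (x.den : ℝ) := by
    rw [hnum]
    exact Rat.cast_def x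
  have h3 := h.sum p hp p' hp' x.den x.num.toNat hn hm (by
    intro i hi hcon
    apply hxB
    refine ⟨i, ?_⟩
    have h4 := h.reg p' hp' i hi
    show -p.1 i / p'.1 i = (x : ℝ)
    rw [hxe, div_eq_div_iff h4 hnR.ne']
    linarith)
  have h4 := smul_mem_closure_cone h3 (inv_pos.mpr hnR)
  have h5 : (x.den : ℝ)⁻¹ • ((x.den : ℝ) • p + (x.num.toNat : ℝ) • p') = p + (x : ℝ) • p' := by
    rw [smul_add, smul_smul, smul_smul, inv_mul_cancel₀ hnR.ne', one_smul, hxe]
    congr 2
    field_simp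
  rw [h5] at h4
  exact h4

theorem Data.add_mem (h : Data o EL D) {p p' : (ι → ℝ) × E} (hp : p ∈ closure (cone D))
    (hp' : p' ∈ closure (cone D)) : p + p' ∈ closure (cone D) := by
  rw [← closure_closure (s := cone D)]
  refine map_mem_closure₂ continuous_add hp hp' ?_
  rintro _ ⟨s, hs, d, hd, rfl⟩ _ ⟨s', hs', d', hd', rfl⟩
  have h1 := smul_mem_closure_cone (h.add_cone hd hd' (r := s' / s) (by positivity)) hs
  rwa [smul_add, smul_smul, mul_div_cancel₀ _ hs.ne'] at h1

theorem Data.sum_mem (h : Data o EL D) {κ : Type*} (s : Finset κ) (f : κ → (ι → ℝ) × E)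
    (hf : ∀ i ∈ s, f i ∈ closure (cone D)) : ∑ i ∈ s, f i ∈ closure (cone D) := by
  classical
  induction s using Finset.induction_on with
  | empty => simpa using h.zero_mem
  | insert a s ha ih =>
    rw [Finset.sum_insert ha]
    exact h.add_mem (hf a (Finset.mem_insert_self a s))
      (ih fun i hi => hf i (Finset.mem_insert_of_mem hi))

/-- vectors that become members after adding some `(X, 0)`, with both signs -/
def Data.absorbed (h : Data o EL D) : Submodule ℝ ((ι → ℝ) × E) where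
  carrier := {v | ∃ X : ι → ℝ, ((X, 0) : (ι → ℝ) × E) + v ∈ closure (cone D) ∧
    ((X, 0) : (ι → ℝ) × E) - v ∈ closure (cone D)}
  add_mem' := by
    rintro v v' ⟨X, h1, h2⟩ ⟨X', h1', h2'⟩
    refine ⟨X + X', ?_, ?_⟩
    · have := h.add_mem h1 h1'
      have e : ((X + X', 0) : (ι → ℝ) × E) + (v + v') = (X, 0) + v + ((X', 0) + v') := by
        ext <;> simp [add_assoc, add_left_comm]
      rwa [e]
    · have := h.add_mem h2 h2'
      have e : ((X + X', 0) : (ι → ℝ) × E) - (v + v') = (X, 0) - v + ((X', 0) - v') := by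
        ext
        · simp; ring
        · simp; abel
      rwa [e]
  zero_mem' := ⟨0, by
    rw [Prod.mk_zero_zero, add_zero]
    exact h.zero_mem, by
    rw [Prod.mk_zero_zero, sub_zero]
    exact h.zero_mem⟩
  smul_mem' := by
    rintro a v ⟨X, h1, h2⟩
    rcases le_total 0 a with ha | ha
    · refine ⟨a • X, ?_, ?_⟩
      · have := h.smul_mem h1 ha
        have e : ((a • X, 0) : (ι → ℝ) × E) + a • v = a • ((X, 0) + v) := by
          rw [smul_add]; simp
        rwa [e]
      · have := h.smul_mem h2 ha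
        have e : ((a • X, 0) : (ι → ℝ) × E) - a • v = a • ((X, 0) - v) := by
          rw [smul_sub]; simp
        rwa [e]
    · refine ⟨(-a) • X, ?_, ?_⟩
      · have := h.smul_mem h2 (neg_nonneg.mpr ha)
        have e : (((-a) • X, 0) : (ι → ℝ) × E) + a • v = (-a) • ((X, 0) - v) := by
          rw [smul_sub]; simp
        rwa [e]
      · have := h.smul_mem h1 (neg_nonneg.mpr ha)
        have e : (((-a) • X, 0) : (ι → ℝ) × E) - a • v = (-a) • ((X, 0) + v) := by
          rw [smul_add]; simp [sub_eq_add_neg]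
        rwa [e]

theorem Data.mem_absorbed (h : Data o EL D) {d : (ι → ℝ) × E} (hd : d ∈ D) :
    d ∈ h.absorbed := by
  obtain ⟨X, hX⟩ := h.sigma d hd
  have h1 : d ∈ closure (cone D) := subset_closure (mem_cone_of_mem hd)
  have h2 : ((X, -d.2) : (ι → ℝ) × E) ∈ closure (cone D) := subset_closure (mem_cone_of_mem hX)
  refine ⟨d.1 + X, ?_, ?_⟩
  · have e : ((d.1 + X, 0) : (ι → ℝ) × E) + d = (d + d) + (X, -d.2) := by
      ext
      · simp; ring
      · simp
    rw [e]
    exact h.add_mem (h.add_mem h1 h1) h2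
  · have e : ((d.1 + X, 0) : (ι → ℝ) × E) - d = (X, -d.2) := by
      ext
      · simp
      · simp
    rw [e]
    exact h2

theorem Data.span_le (h : Data o EL D) : Submodule.span ℝ D ≤ h.absorbed :=
  Submodule.span_le.mpr fun _ hd => h.mem_absorbed hd

theorem Data.mem_span (h : Data o EL D) {s : E} (hs : s ∈ EL) :
    ((0, s) : (ι → ℝ) × E) ∈ Submodule.span ℝ D := by
  by_contra hcon
  obtain ⟨f, hf, hle⟩ := Submodule.exists_le_ker_of_notMem hcon
  set g : E →ₗ[ℝ] ℝ := f.comp (LinearMap.inr ℝ (ι → ℝ) E) with hg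
  set φ : (ι → ℝ) →ₗ[ℝ] ℝ := -f.comp (LinearMap.inl ℝ (ι → ℝ) E) with hφ
  set e₁ : E := (InnerProductSpace.toDual ℝ E).symm (LinearMap.toContinuousLinearMap g) with he₁
  have hin : ∀ v : E, inner ℝ v e₁ = g v := by
    intro v
    rw [real_inner_comm, he₁, InnerProductSpace.toDual_symm_apply]
    rfl
  set e : E := EL.starProjection e₁ with he
  have hee : ∀ v ∈ EL, inner ℝ v e = g v := by
    intro v hv
    rw [← hin v, he]
    rw [← Submodule.inner_starProjection_left_eq_right, Submodule.starProjection_eq_self_iff.mpr hv]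
  have hsplit : ∀ p : (ι → ℝ) × E, f p = f (p.1, 0) + g p.2 := by
    intro p
    rw [hg, LinearMap.comp_apply, LinearMap.inr_apply, ← map_add]
    congr 1
    ext <;> simp
  have h0 : e = 0 := by
    refine h.norel e (EL.starProjection_apply_mem _) φ fun p hp => ?_
    have h1 : f p = 0 := hle (Submodule.subset_span hp)
    rw [hsplit] at h1
    rw [hee p.2 (h.el p hp), hφ]
    simp only [LinearMap.neg_apply, LinearMap.comp_apply, LinearMap.inl_apply]
    linarith
  apply hf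
  rw [hsplit]
  have h2 := hee s hs
  rw [h0, inner_zero_right] at h2
  rw [← h2, add_zero]
  exact map_zero f

/-- one vector `X₀` for all small vectors of `EL` -/
theorem Data.exists_box (h : Data o EL D) : ∃ (n : ℕ) (b : Module.Basis (Fin n) ℝ EL) (X₀ : ι → ℝ),
    ∀ a : Fin n → ℝ, (∀ j, |a j| ≤ 1) →
      ((X₀, ∑ j, a j • (b j : E)) : (ι → ℝ) × E) ∈ closure (cone D) := by
  set b := Module.finBasis ℝ EL with hb
  have h1 : ∀ j, ∃ X : ι → ℝ, ((X, 0) : (ι → ℝ) × E) + (0, (b j : E)) ∈ closure (cone D) ∧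
      ((X, 0) : (ι → ℝ) × E) - (0, (b j : E)) ∈ closure (cone D) := fun j =>
    h.span_le (h.mem_span (b j).2)
  choose X hX1 hX2 using h1
  refine ⟨Module.finrank ℝ EL, b, ∑ j, X j, fun a ha => ?_⟩
  have e : ((∑ j, X j, ∑ j, a j • (b j : E)) : (ι → ℝ) × E) =
      ∑ j, (((1 + a j) / 2) • (((X j, 0) : (ι → ℝ) × E) + (0, (b j : E))) +
        ((1 - a j) / 2) • (((X j, 0) : (ι → ℝ) × E) - (0, (b j : E)))) := by
    rw [Prod.ext_iff]
    constructor
    · rw [Prod.fst_sum]
      show ∑ j, X j = _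
      refine Finset.sum_congr rfl fun j _ => ?_
      simp only [Prod.fst_add, Prod.smul_fst, Prod.fst_sub, add_zero, sub_zero]
      rw [← add_smul]
      have : (1 + a j) / 2 + (1 - a j) / 2 = 1 := by ring
      rw [this, one_smul]
    · rw [Prod.snd_sum]
      show ∑ j, a j • (b j : E) = _
      refine Finset.sum_congr rfl fun j _ => ?_
      simp only [Prod.snd_add, Prod.smul_snd, Prod.snd_sub, zero_add, zero_sub, smul_neg]
      rw [← sub_eq_add_neg, ← sub_smul]
      congr 1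
      ring
  rw [e]
  refine h.sum_mem _ _ fun j _ => h.add_mem (h.smul_mem (hX1 j) ?_) (h.smul_mem (hX2 j) ?_)
  · have := (abs_le.mp (ha j)).1
    linarith
  · have := (abs_le.mp (ha j)).2
    linarith

theorem Data.exists_ray (h : Data o EL D) : ∃ X : ι → ℝ, (∀ i, i ≠ o → X i ≠ 0) ∧
    ∀ e ∈ EL, ∃ τ : ℝ, 0 < τ ∧ ((X, τ • e) : (ι → ℝ) × E) ∈ closure (cone D) := by
  obtain ⟨n, b, X₀, hbox⟩ := h.exists_box
  obtain ⟨d, hd⟩ := h.ne
  set α := b.repr ⟨d.2, h.el d hd⟩ with hα
  have hdsum : d.2 = ∑ j, α j • (b j : E) := by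
    have := b.sum_repr ⟨d.2, h.el d hd⟩
    have h2 := congrArg (fun v : EL => (v : E)) this
    simp only [Submodule.coe_sum, Submodule.coe_smul] at h2
    exact h2.symm
  -- a bound
  have hbd : ∀ a : Fin n → ℝ, ∃ τ : ℝ, 0 < τ ∧ ∀ t, 0 < t → t ≤ τ → ∀ j, |t * a j| ≤ 1 / 2 := by
    intro a
    set M := ∑ j, |a j| with hM
    have hM0 : 0 ≤ M := Finset.sum_nonneg fun j _ => abs_nonneg _
    refine ⟨1 / (2 * (M + 1)), by positivity, fun t ht htM j => ?_⟩
    have h1 : |a j| ≤ M := Finset.single_le_sum (f := fun j => |a j|)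
      (fun j _ => abs_nonneg _) (Finset.mem_univ j)
    rw [abs_mul, abs_of_pos ht]
    calc t * |a j| ≤ 1 / (2 * (M + 1)) * (M + 1) :=
          mul_le_mul htM (by linarith) (abs_nonneg _) (by positivity)
      _ = 1 / 2 := by field_simp
  obtain ⟨ε₁, hε₁, hε⟩ := hbd (fun j => α j)
  -- a generic `ε`
  obtain ⟨ε, hεm, hεB⟩ : ∃ ε ∈ Set.Ioc 0 ε₁, ε ∉ Set.range (fun i => -X₀ i / d.1 i) :=
    (Set.Ioc_infinite hε₁).exists_notMem_finite (Set.finite_range _)
  refine ⟨X₀ + ε • d.1, fun i hi hcon => ?_, fun e he => ?_⟩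
  · apply hεB
    refine ⟨i, ?_⟩
    have h1 := h.reg d hd i hi
    simp only [Pi.add_apply, Pi.smul_apply, smul_eq_mul] at hcon
    show -X₀ i / d.1 i = ε
    rw [div_eq_iff h1]
    linarith
  · set β := b.repr ⟨e, he⟩ with hβ
    have hesum : e = ∑ j, β j • (b j : E) := by
      have := b.sum_repr ⟨e, he⟩
      have h2 := congrArg (fun v : EL => (v : E)) this
      simp only [Submodule.coe_sum, Submodule.coe_smul] at h2
      exact h2.symm
    obtain ⟨τ, hτ, hτb⟩ := hbd (fun j => β j)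
    refine ⟨τ, hτ, ?_⟩
    have h1 := hbox (fun j => τ * β j - ε * α j) (fun j => by
      have h2 := hτb τ hτ le_rfl j
      have h3 := hε ε hεm.1 hεm.2 j
      have := abs_sub (τ * β j) (ε * α j)
      linarith)
    have h2 := h.add_mem h1 (smul_mem_closure_cone (subset_closure (mem_cone_of_mem hd)) hεm.1)
    have e1 : ((X₀, ∑ j, (τ * β j - ε * α j) • (b j : E)) : (ι → ℝ) × E) + ε • d =
        (X₀ + ε • d.1, τ • e) := by
      rw [Prod.ext_iff]
      refine ⟨rfl, ?_⟩
      show ∑ j, (τ * β j - ε * α j) • (b j : E) + ε • d.2 = τ • e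
      rw [hdsum, hesum, Finset.smul_sum, Finset.smul_sum, ← Finset.sum_add_distrib]
      refine Finset.sum_congr rfl fun j _ => ?_
      rw [sub_smul, smul_smul, smul_smul]
      abel
    rwa [e1] at h2

theorem Data.conclusion (h : Data o EL D) : ∃ X : ι → ℝ, (∀ i, i ≠ o → X i ≠ 0) ∧
    (∃ p ∈ D, ∀ i, i ≠ o → 0 < X i * p.1 i) ∧
    ∀ e ∈ EL, e ≠ 0 → ∃ p ∈ D, (∀ i, i ≠ o → 0 < X i * p.1 i) ∧ 0 < inner ℝ p.2 e := by
  obtain ⟨X, hX, hray⟩ := h.exists_ray
  have hev : ∀ v : E, ∀ᶠ p in 𝓝 ((X, v) : (ι → ℝ) × E), ∀ i, i ≠ o → 0 < X i * p.1 i := by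
    intro v
    rw [eventually_all]
    intro i
    by_cases hi : i = o
    · exact Eventually.of_forall fun p hp => absurd hi hp
    · have hc : Continuous (fun p : (ι → ℝ) × E => X i * p.1 i) :=
        continuous_const.mul ((continuous_apply i).comp continuous_fst)
      have h1 : 0 < X i * ((X, v) : (ι → ℝ) × E).1 i := mul_self_pos.mpr (hX i hi)
      filter_upwards [hc.continuousAt.eventually (lt_mem_nhds h1)] with p hp _
      exact hp
  have hscale : ∀ (s : ℝ) (d : (ι → ℝ) × E), 0 < s → (∀ i, i ≠ o → 0 < X i * (s • d).1 i) →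
      ∀ i, i ≠ o → 0 < X i * d.1 i := by
    intro s d hs hd i hi
    have h1 := hd i hi
    have h2 : X i * (s • d).1 i = s * (X i * d.1 i) := by
      simp only [Prod.smul_fst, Pi.smul_apply, smul_eq_mul]
      ring
    rw [h2] at h1
    exact (pos_iff_pos_of_mul_pos h1).mp hs
  refine ⟨X, hX, ?_, fun e he he0 => ?_⟩
  · obtain ⟨τ, -, hτ⟩ := hray 0 EL.zero_mem
    obtain ⟨p, hp, hp'⟩ := ((mem_closure_iff_frequently.mp hτ).and_eventually (hev _)).exists
    obtain ⟨s, hs, d, hd, rfl⟩ := hp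
    exact ⟨d, hd, hscale s d hs hp'⟩
  · obtain ⟨τ, hτ0, hτ⟩ := hray e he
    have hc : Continuous (fun p : (ι → ℝ) × E => inner ℝ p.2 e) :=
      continuous_snd.inner continuous_const
    have h1 : 0 < inner ℝ ((X, τ • e) : (ι → ℝ) × E).2 e := by
      show 0 < inner ℝ (τ • e) e
      rw [real_inner_smul_left]
      exact mul_pos hτ0 (real_inner_self_pos.mpr he0)
    have h2 := hc.continuousAt.eventually (lt_mem_nhds h1)
    obtain ⟨p, hp, hp', hp''⟩ :=
      ((mem_closure_iff_frequently.mp hτ).and_eventually ((hev _).and h2)).exists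
    obtain ⟨s, hs, d, hd, rfl⟩ := hp
    refine ⟨d, hd, hscale s d hs hp', ?_⟩
    have h3 : inner ℝ (s • d).2 e = s * inner ℝ d.2 e := by
      rw [Prod.smul_snd, real_inner_smul_left]
    rw [h3] at hp''
    exact (pos_iff_pos_of_mul_pos hp'').mp hs

end Pool.Agent.Lib.MP_d9b062_al.CONE
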