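import Pool.Agent.Lib.MP_d9b062_al_h94.NoRel
import Pool.Agent.Lib.MP_d9b062_al_helper62.Convex

/-!
# Task CONE: all signs of translation invariants occur
-/

set_option autoImplicit false

namespace Pool.Agent.Lib.MP_d9b062_al

open Filter
open scoped Topology

namespace Cell

variable {N : ℕ} {G : Subgroup (Op N)ˣ} {ι : Type} [Fintype ι] [LinearOrder ι] (c : Cell G ι)

/-- the translation data of the group `Γ` -/
def Dat (Γ : Subgroup (Aff (V N))) : Set ((ι → ℝ) × V N) :=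
  {p | ∃ γ ∈ Γ, ∃ F l t, c.ALox γ F l t ∧ p = (c.tau (l : Op N), c.PL t)}

namespace CONE

theorem inv_apply_self (u : (Op N)ˣ) (v : V N) :
    ((u⁻¹ : (Op N)ˣ) : Op N) ((u : Op N) v) = v := by
  have := congrArg (fun T : Op N => T v) (Units.inv_mul u)
  exact this

theorem apply_inv_self (u : (Op N)ˣ) (v : V N) :
    (u : Op N) (((u⁻¹ : (Op N)ˣ) : Op N) v) = v := by
  have := congrArg (fun T : Op N => T v) (Units.mul_inv u)
  exact this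

theorem pow_fix {l : (Op N)ˣ} {t : V N} (h : (l : Op N) t = t) (n : ℕ) :
    ((l ^ n : (Op N)ˣ) : Op N) t = t := by
  induction n with
  | zero => rfl
  | succ n ih =>
    rw [pow_succ, Units.val_mul]
    show ((l ^ n : (Op N)ˣ) : Op N) ((l : Op N) t) = t
    rw [h, ih]

theorem aff_pow {l : (Op N)ˣ} {t : V N} (h : (l : Op N) t = t) (n : ℕ) :
    (⟨l, t⟩ : Aff (V N)) ^ n = ⟨l ^ n, (n : ℝ) • t⟩ := by
  induction n with
  | zero => ext1 <;> simp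
  | succ n ih =>
    rw [pow_succ, ih]
    ext1
    · show l ^ n * l = l ^ (n + 1)
      rw [pow_succ]
    · show (n : ℝ) • t + ((l ^ n : (Op N)ˣ) : Op N) t = ((n + 1 : ℕ) : ℝ) • t
      rw [pow_fix h]
      push_cast
      rw [add_smul, one_smul]

theorem linLox_conj {f l : (Op N)ˣ} {P A : Aff (V N)} (hA : A.lin ∈ G)
    (hP : c.LinLox P.lin f l) : c.LinLox (A * P * A⁻¹).lin (A.lin * f) l where
  f_mem := G.mul_mem hA hP.f_mem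
  l_mem := hP.l_mem
  dom := hP.dom
  eq := by
    show A.lin * P.lin * A.lin⁻¹ = A.lin * f * l * (A.lin * f)⁻¹
    rw [hP.eq]
    group

theorem PL_l {l : (Op N)ˣ} (hl : l ∈ c.L) (v : V N) : c.PL ((l : Op N) v) = c.PL v := by
  have := congrArg (fun T : Op N => T v) (c.PL_mul_l hl)
  exact this

theorem T_conj {f l : (Op N)ˣ} {P : Aff (V N)} (hP : c.LinLox P.lin f l) (A : Aff (V N)) :
    c.T (A.lin * f) (A * P * A⁻¹) = c.T f P := by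
  have e1 : (((A.lin * f)⁻¹ : (Op N)ˣ) : Op N) (A * P * A⁻¹).tr =
      ((f⁻¹ : (Op N)ˣ) : Op N) P.tr +
        (((f⁻¹ : (Op N)ˣ) : Op N) (((A.lin⁻¹ : (Op N)ˣ) : Op N) A.tr) -
          (l : Op N) (((f⁻¹ : (Op N)ˣ) : Op N) (((A.lin⁻¹ : (Op N)ˣ) : Op N) A.tr))) := by
    have h1 : (A * P * A⁻¹).tr = A.tr + (A.lin : Op N) P.tr +
        (A.lin : Op N) ((P.lin : Op N) (-(((A.lin⁻¹ : (Op N)ˣ) : Op N) A.tr))) := rfl
    have h2 : ∀ v : V N, (((A.lin * f)⁻¹ : (Op N)ˣ) : Op N) v =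
        ((f⁻¹ : (Op N)ˣ) : Op N) (((A.lin⁻¹ : (Op N)ˣ) : Op N) v) := by
      intro v
      rw [mul_inv_rev]
      rfl
    have h3 : ∀ v : V N, ((f⁻¹ : (Op N)ˣ) : Op N) ((P.lin : Op N) v) =
        (l : Op N) (((f⁻¹ : (Op N)ˣ) : Op N) v) := by
      intro v
      have h4 : f⁻¹ * P.lin = l * f⁻¹ := by rw [hP.eq]; group
      have := congrArg (fun u : (Op N)ˣ => (u : Op N) v) h4
      exact this
    rw [h1, h2]
    simp only [map_add, map_neg, inv_apply_self, h3]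
    abel
  unfold T
  rw [e1, map_add, map_sub, PL_l c hP.l_mem, sub_self, add_zero]

theorem sum_mem {c : Cell G ι} {Γ : Subgroup (Aff (V N))} (hΓ : c.Good Γ)
    {p p' : (ι → ℝ) × V N} (hp : p ∈ c.Dat Γ) (hp' : p' ∈ c.Dat Γ) {n m : ℕ} (hn : 0 < n)
    (hm : 0 < m) (hne : ∀ i, i ≠ c.o → (n : ℝ) * p.1 i + (m : ℝ) * p'.1 i ≠ 0) :
    (n : ℝ) • p + (m : ℝ) • p' ∈ closure (Pool.Agent.Lib.MP_d9b062_al.CONE.cone (c.Dat Γ)) := by
  obtain ⟨γ₁, hγ₁, F₁, l₁, t₁, h₁, rfl⟩ := hp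
  obtain ⟨γ₂, hγ₂, F₂, l₂, t₂, h₂, rfl⟩ := hp'
  obtain ⟨η, hη, hreg⟩ := hΓ.exists_reg (G.inv_mem h₁.F_mem) h₂.F_mem
  obtain ⟨η', hη', hreg'⟩ := hΓ.exists_reg (G.inv_mem h₂.F_mem) h₁.F_mem
  set h : (Op N)ˣ := F₁.lin⁻¹ * η.lin * F₂.lin with hh
  set h' : (Op N)ˣ := F₂.lin⁻¹ * η'.lin * F₁.lin with hh'
  have hhG : h ∈ G := G.mul_mem (G.mul_mem (G.inv_mem h₁.F_mem) (hΓ.lin_mem η hη)) h₂.F_mem
  have hhG' : h' ∈ G :=
    G.mul_mem (G.mul_mem (G.inv_mem h₂.F_mem) (hΓ.lin_mem η' hη')) h₁.F_mem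
  have hnR : (0 : ℝ) < n := by exact_mod_cast hn
  have hmR : (0 : ℝ) < m := by exact_mod_cast hm
  have hn1 : (1 : ℝ) ≤ n := by exact_mod_cast hn
  have hm1 : (1 : ℝ) ≤ m := by exact_mod_cast hm
  obtain ⟨C, n₀, hblock⟩ := c.two_block h₁.l_mem h₁.dom h₂.l_mem h₂.dom h₁.P_t h₁.l_t h₂.P_t
    h₂.l_t hhG hreg hhG' hreg' (F₁⁻¹ * η * F₂).tr (F₂⁻¹ * η' * F₁).tr
    (ρ := 1 / ((n : ℝ) * m)) (by positivity)
  rw [Metric.mem_closure_iff]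
  intro ε hε
  -- choose `k`
  have hev : ∀ᶠ k : ℕ in atTop, n₀ ≤ k ∧ 1 ≤ k ∧ C < k * ε ∧ ∀ i, i ≠ c.o →
      C < k * |(n : ℝ) * c.tau (l₁ : Op N) i + (m : ℝ) * c.tau (l₂ : Op N) i| := by
    have ht : ∀ x : ℝ, 0 < x → ∀ᶠ k : ℕ in atTop, C < k * x := fun x hx =>
      (tendsto_natCast_atTop_atTop.atTop_mul_const hx).eventually_gt_atTop C
    refine (eventually_ge_atTop n₀).and ((eventually_ge_atTop 1).and ((ht ε hε).and ?_))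
    rw [eventually_all]
    intro i
    by_cases hi : i = c.o
    · exact Eventually.of_forall fun k hk => absurd hi hk
    · filter_upwards [ht _ (abs_pos.mpr (hne i hi))] with k hk _
      exact hk
  obtain ⟨k, hk0, hk1, hkε, hkne⟩ := hev.exists
  have hkR : (0 : ℝ) < k := by exact_mod_cast hk1
  obtain ⟨f, l, hlox, htau, hT⟩ := hblock (n * k) (m * k)
    (hk0.trans (Nat.le_mul_of_pos_left k hn)) (hk0.trans (Nat.le_mul_of_pos_left k hm))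
    (by
      push_cast
      have : 1 / ((n : ℝ) * m) * (n * k) = k / m := by field_simp
      rw [this, div_le_iff₀ hmR]
      have h1 : (1 : ℝ) ≤ m * m := by nlinarith
      nlinarith [mul_le_mul_of_nonneg_right h1 hkR.le])
    (by
      push_cast
      have : 1 / ((n : ℝ) * m) * (m * k) = k / n := by field_simp
      rw [this, div_le_iff₀ hnR]
      have h1 : (1 : ℝ) ≤ n * n := by nlinarith
      nlinarith [mul_le_mul_of_nonneg_right h1 hkR.le])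
  set P : Aff (V N) := (⟨l₁ ^ (n * k), ((n * k : ℕ) : ℝ) • t₁⟩ : Aff (V N)) *
    ⟨h, (F₁⁻¹ * η * F₂).tr⟩ * ⟨l₂ ^ (m * k), ((m * k : ℕ) : ℝ) • t₂⟩ *
    ⟨h', (F₂⁻¹ * η' * F₁).tr⟩ with hP
  have hlox' : c.LinLox P.lin f l := hlox
  have hγ : F₁ * P * F₁⁻¹ ∈ Γ := by
    have e1 : (⟨h, (F₁⁻¹ * η * F₂).tr⟩ : Aff (V N)) = F₁⁻¹ * η * F₂ := rfl
    have e2 : (⟨h', (F₂⁻¹ * η' * F₁).tr⟩ : Aff (V N)) = F₂⁻¹ * η' * F₁ := rfl
    have e3 : F₁ * P * F₁⁻¹ = γ₁ ^ (n * k) * η * γ₂ ^ (m * k) * η' := by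
      rw [hP, e1, e2, ← aff_pow h₁.l_t, ← aff_pow h₂.l_t]
      have g1 : γ₁ ^ (n * k) = F₁ * (⟨l₁, t₁⟩ : Aff (V N)) ^ (n * k) * F₁⁻¹ := by
        rw [h₁.eq, conj_pow]
      have g2 : γ₂ ^ (m * k) = F₂ * (⟨l₂, t₂⟩ : Aff (V N)) ^ (m * k) * F₂⁻¹ := by
        rw [h₂.eq, conj_pow]
      rw [g1, g2]
      group
    rw [e3]
    exact Γ.mul_mem (Γ.mul_mem (Γ.mul_mem (Γ.pow_mem hγ₁ _) hη) (Γ.pow_mem hγ₂ _)) hη'
  have htau' : ∀ i, |c.tau (l : Op N) i -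
      k * ((n : ℝ) * c.tau (l₁ : Op N) i + (m : ℝ) * c.tau (l₂ : Op N) i)| ≤ C := by
    intro i
    have h3 := (norm_le_pi_norm _ i).trans htau
    rw [Real.norm_eq_abs] at h3
    have e : (c.tau (l : Op N) - (((n * k : ℕ) : ℝ) • c.tau (l₁ : Op N) +
        ((m * k : ℕ) : ℝ) • c.tau (l₂ : Op N))) i = c.tau (l : Op N) i -
      k * ((n : ℝ) * c.tau (l₁ : Op N) i + (m : ℝ) * c.tau (l₂ : Op N) i) := by
      simp only [Pi.sub_apply, Pi.add_apply, Pi.smul_apply, smul_eq_mul]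
      push_cast
      ring
    rwa [e] at h3
  have hC : 0 ≤ C := (norm_nonneg _).trans htau
  have hv : c.VReg (l : Op N) := by
    intro i hi h0
    have h3 := htau' i
    rw [h0, zero_sub, abs_neg, abs_mul, abs_of_pos hkR] at h3
    exact absurd (hkne i hi) (not_lt.mpr h3)
  obtain ⟨F, t, hF, hA⟩ := c.exists_alox (linLox_conj c h₁.F_mem hlox') hv
  have hTeq := c.T_eq hA
  rw [hF, T_conj c hlox'] at hTeq
  refine ⟨(k : ℝ)⁻¹ • (c.tau (l : Op N), c.PL t), ⟨(k : ℝ)⁻¹, inv_pos.mpr hkR, _,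
    ⟨_, hγ, F, l, t, hA, rfl⟩, rfl⟩, ?_⟩
  have hfin : (k : ℝ)⁻¹ * C < ε := by
    rw [inv_mul_lt_iff₀ hkR]
    exact hkε
  rw [Prod.dist_eq, max_lt_iff]
  constructor
  · refine lt_of_le_of_lt ?_ hfin
    show dist ((n : ℝ) • c.tau (l₁ : Op N) + (m : ℝ) • c.tau (l₂ : Op N))
      ((k : ℝ)⁻¹ • c.tau (l : Op N)) ≤ _
    rw [dist_eq_norm]
    have e : (n : ℝ) • c.tau (l₁ : Op N) + (m : ℝ) • c.tau (l₂ : Op N) -
        (k : ℝ)⁻¹ • c.tau (l : Op N) = -((k : ℝ)⁻¹ • (c.tau (l : Op N) -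
          (((n * k : ℕ) : ℝ) • c.tau (l₁ : Op N) + ((m * k : ℕ) : ℝ) • c.tau (l₂ : Op N)))) := by
      funext i
      simp only [Pi.sub_apply, Pi.add_apply, Pi.smul_apply, Pi.neg_apply, smul_eq_mul]
      push_cast
      field_simp
      ring
    rw [e, norm_neg, norm_smul, norm_inv, Real.norm_of_nonneg hkR.le]
    exact mul_le_mul_of_nonneg_left htau (inv_pos.mpr hkR).le
  · refine lt_of_le_of_lt ?_ hfin
    show dist ((n : ℝ) • c.PL t₁ + (m : ℝ) • c.PL t₂) ((k : ℝ)⁻¹ • c.PL t) ≤ _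
    rw [dist_eq_norm, ← hTeq]
    have e : (n : ℝ) • c.PL t₁ + (m : ℝ) • c.PL t₂ - (k : ℝ)⁻¹ • c.T f P =
        -((k : ℝ)⁻¹ • (c.T f P -
          (((n * k : ℕ) : ℝ) • c.PL t₁ + ((m * k : ℕ) : ℝ) • c.PL t₂))) := by
      have e1 : ((n * k : ℕ) : ℝ) = k * n := by push_cast; ring
      have e2 : ((m * k : ℕ) : ℝ) = k * m := by push_cast; ring
      rw [e1, e2, smul_sub, smul_add, smul_smul, smul_smul, ← mul_assoc, ← mul_assoc,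
        inv_mul_cancel₀ hkR.ne', one_mul, one_mul]
      abel
    rw [e, norm_neg, norm_smul, norm_inv, Real.norm_of_nonneg hkR.le]
    exact mul_le_mul_of_nonneg_left hT (inv_pos.mpr hkR).le

theorem π_ne {i : ι} (hi : i ≠ c.o) : c.π i ≠ c.o := by
  intro h
  apply c.P_ne i hi
  have h1 := c.w_P i
  have h2 := c.w_P c.o
  rw [h] at h1
  rw [c.π_o] at h2
  have h3 : (c.w : Op N) * c.P i = (c.w : Op N) * c.P c.o := h1.trans h2.symm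
  have h4 : c.P i = c.P c.o := by
    have : ((c.w⁻¹ : (Op N)ˣ) : Op N) * ((c.w : Op N) * c.P i) =
        ((c.w⁻¹ : (Op N)ˣ) : Op N) * ((c.w : Op N) * c.P c.o) := by rw [h3]
    rwa [← mul_assoc, ← mul_assoc, Units.inv_mul, one_mul, one_mul] at this
  have h5 := c.grading.idem i
  have h6 := c.grading.orth i c.o hi
  rw [← h4, h5] at h6
  exact h6

theorem tau_conj {l : (Op N)ˣ} (hl : l ∈ c.L) (i : ι) :
    c.tau ((c.w⁻¹ * l⁻¹ * c.w : (Op N)ˣ) : Op N) i = -c.tau (l : Op N) (c.π i) := by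
  obtain ⟨h1, h2⟩ := c.w_conj_mem hl
  by_cases hi : i = c.o
  · subst hi
    rw [c.tau_o h1, c.π_o, c.tau_o hl, neg_zero]
  · exact h2 i (c.P_ne i hi)

theorem inv_fix {u : (Op N)ˣ} {v : V N} (h : (u : Op N) v = v) :
    ((u⁻¹ : (Op N)ˣ) : Op N) v = v := by
  have := inv_apply_self u v
  rwa [h] at this

theorem alox_inv {γ F : Aff (V N)} {l : (Op N)ˣ} {t : V N} (h : c.ALox γ F l t) :
    c.ALox γ⁻¹ (F * ⟨c.w, 0⟩) (c.w⁻¹ * l⁻¹ * c.w) (-(((c.w⁻¹ : (Op N)ˣ) : Op N) t)) where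
  F_mem := G.mul_mem h.F_mem c.w_mem
  l_mem := (c.w_conj_mem h.l_mem).1
  dom := by
    intro i j hij
    rw [tau_conj c h.l_mem, tau_conj c h.l_mem]
    exact neg_lt_neg (h.dom _ _ (c.π_anti i j hij))
  vreg := by
    intro i hi
    rw [tau_conj c h.l_mem]
    exact neg_ne_zero.mpr (h.vreg _ (π_ne c hi))
  P_t := by
    rw [map_neg]
    congr 1
    have h2 := c.w_P c.o
    rw [c.π_o] at h2
    have h3 : ((c.w⁻¹ : (Op N)ˣ) : Op N) * c.P c.o = c.P c.o * ((c.w⁻¹ : (Op N)ˣ) : Op N) := by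
      calc ((c.w⁻¹ : (Op N)ˣ) : Op N) * c.P c.o
          = ((c.w⁻¹ : (Op N)ˣ) : Op N) * (c.P c.o * (c.w : Op N)) *
              ((c.w⁻¹ : (Op N)ˣ) : Op N) := by
            rw [mul_assoc, mul_assoc, Units.mul_inv, mul_one]
        _ = ((c.w⁻¹ : (Op N)ˣ) : Op N) * ((c.w : Op N) * c.P c.o) *
              ((c.w⁻¹ : (Op N)ˣ) : Op N) := by rw [h2]
        _ = _ := by rw [← mul_assoc, Units.inv_mul, one_mul]
    have h4 := congrArg (fun T : Op N => T t) h3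
    have h5 : ((c.w⁻¹ : (Op N)ˣ) : Op N) (c.P c.o t) =
        c.P c.o (((c.w⁻¹ : (Op N)ˣ) : Op N) t) := h4
    rw [← h5, h.P_t]
  l_t := by
    rw [map_neg]
    congr 1
    show ((c.w⁻¹ : (Op N)ˣ) : Op N) (((l⁻¹ : (Op N)ˣ) : Op N)
      ((c.w : Op N) (((c.w⁻¹ : (Op N)ˣ) : Op N) t))) = _
    rw [apply_inv_self, inv_fix h.l_t]
  eq := by
    have e1 : (⟨c.w⁻¹ * l⁻¹ * c.w, -(((c.w⁻¹ : (Op N)ˣ) : Op N) t)⟩ : Aff (V N)) =
        (⟨c.w, 0⟩ : Aff (V N))⁻¹ * (⟨l, t⟩ : Aff (V N))⁻¹ * ⟨c.w, 0⟩ := by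
      ext1
      · rfl
      · show -(((c.w⁻¹ : (Op N)ˣ) : Op N) t) =
          -(((c.w⁻¹ : (Op N)ˣ) : Op N) 0) + ((c.w⁻¹ : (Op N)ˣ) : Op N)
            (-(((l⁻¹ : (Op N)ˣ) : Op N) t)) +
          ((c.w⁻¹ * l⁻¹ : (Op N)ˣ) : Op N) 0
        rw [inv_fix h.l_t, map_zero, map_zero, neg_zero, zero_add, add_zero, map_neg]
    rw [e1, h.eq]
    group

theorem PL_winv (v : V N) : c.PL (((c.w⁻¹ : (Op N)ˣ) : Op N) v) = c.PL v := by
  have h1 := congrArg (fun T : Op N => T (((c.w⁻¹ : (Op N)ˣ) : Op N) v)) c.PL_mul_w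
  have h2 : c.PL ((c.w : Op N) (((c.w⁻¹ : (Op N)ˣ) : Op N) v)) =
      c.PL (((c.w⁻¹ : (Op N)ˣ) : Op N) v) := h1
  rw [apply_inv_self] at h2
  exact h2.symm

theorem data {c : Cell G ι} {Γ : Subgroup (Aff (V N))} (hΓ : c.Good Γ) :
    Pool.Agent.Lib.MP_d9b062_al.CONE.Data c.o c.EL (c.Dat Γ) where
  ne := by
    obtain ⟨γ, hγ, F, l, t, h⟩ := hΓ.exists_alox
    exact ⟨_, γ, hγ, F, l, t, h, rfl⟩
  el := by
    rintro _ ⟨γ, hγ, F, l, t, h, rfl⟩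
    exact c.PL_mem t
  reg := by
    rintro _ ⟨γ, hγ, F, l, t, h, rfl⟩ i hi
    exact h.vreg i hi
  sum := fun p hp p' hp' n m hn hm hne => sum_mem hΓ hp hp' hn hm hne
  sigma := by
    rintro _ ⟨γ, hγ, F, l, t, h, rfl⟩
    refine ⟨_, γ⁻¹, Γ.inv_mem hγ, _, _, _, alox_inv c h, Prod.ext rfl ?_⟩
    show -c.PL t = c.PL (-(((c.w⁻¹ : (Op N)ˣ) : Op N) t))
    rw [map_neg, PL_winv]
  norel := by
    intro e he φ h
    refine hΓ.no_rel he φ fun γ hγ F l t hA => ?_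
    exact h _ ⟨γ, hγ, F, l, t, hA, rfl⟩

end CONE

theorem Good.exists_sign {c : Cell G ι} {Γ : Subgroup (Aff (V N))} (hΓ : c.Good Γ) :
    ∃ X : ι → ℝ, (∀ i, i ≠ c.o → X i ≠ 0) ∧
      (∃ δ ∈ Γ, ∃ F l t, c.ALox δ F l t ∧ ∀ i, i ≠ c.o → 0 < X i * c.tau (l : Op N) i) ∧
      ∀ e ∈ c.EL, e ≠ 0 → ∃ δ ∈ Γ, ∃ F l t, c.ALox δ F l t ∧
        (∀ i, i ≠ c.o → 0 < X i * c.tau (l : Op N) i) ∧ 0 < inner ℝ (c.PL t) e := by
  obtain ⟨X, hX, ⟨_, ⟨δ, hδ, F, l, t, h, rfl⟩, h1⟩, h2⟩ := (CONE.data hΓ).conclusion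
  refine ⟨X, hX, ⟨δ, hδ, F, l, t, h, h1⟩, fun e he he0 => ?_⟩
  obtain ⟨_, ⟨δ, hδ, F, l, t, h, rfl⟩, h3, h4⟩ := h2 e he he0
  exact ⟨δ, hδ, F, l, t, h, h3, h4⟩

end Cell

end Pool.Agent.Lib.MP_d9b062_al
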